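import Mathlib

/-!
The integral closure of a polynomial ring over a field of prime characteristic in a field
containing it has a nonzero linear map to the polynomial ring.
-/

namespace Pool.Agent.Lib.MP_f762b7_al.Gen

open MvPolynomial Finset

/-- There is a map on the integral elements that is linear and does not vanish at one. -/
def Solid (A L : Type*) [CommRing A] [Field L] [Algebra A L] : Prop :=
  ∃ f : L → A, (∀ s t, IsIntegral A s → IsIntegral A t → f (s + t) = f s + f t) ∧
    (∀ a s, IsIntegral A s → f (algebraMap A L a * s) = a * f s) ∧ f 1 ≠ 0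

variable {k : Type*} [Field k] {n : ℕ}

/-- Every monomial is divisible by a high power of a variable or has small degree. -/
def Jd (t q c : ℕ) (a : MvPolynomial (Fin n) k) : Prop :=
  ∀ γ ∈ a.support, (∃ i, (t + 1) * q ≤ γ i) ∨ γ.degree + q ≤ n * t * q + c

theorem deg_le {a : MvPolynomial (Fin n) k} {γ : Fin n →₀ ℕ} (h : γ ∈ a.support) :
    γ.degree ≤ a.totalDegree := le_totalDegree h

theorem Jd.add {t q c c' : ℕ} {a b : MvPolynomial (Fin n) k} (h : Jd t q c a) (h' : Jd t q c' b) :
    Jd t q (c + c') (a + b) := by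
  classical
  intro γ hγ
  rcases mem_union.1 (support_add hγ) with g | g
  · exact (h γ g).imp id fun e => by omega
  · exact (h' γ g).imp id fun e => by omega

theorem Jd.mul {t r q c c' : ℕ} {a b : MvPolynomial (Fin n) k} (h : Jd t q c a)
    (hb : ∀ δ ∈ b.support, (∀ i, r * q ≤ δ i) ∧ δ.degree ≤ n * r * q + c') :
    Jd (t + r) q (c + c') (b * a) := by
  classical
  intro γ hγ
  obtain ⟨δ, h1, ε, h2, rfl⟩ := mem_add.1 (support_mul _ _ hγ)
  obtain ⟨h3, h4⟩ := hb δ h1
  rcases h ε h2 with ⟨i, hi⟩ | e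
  · refine Or.inl ⟨i, ?_⟩
    have := h3 i
    rw [Finsupp.add_apply]
    nlinarith
  · refine Or.inr ?_
    rw [map_add]
    nlinarith

/-- The constant exponent. -/
noncomputable def cst (n t : ℕ) : Fin n →₀ ℕ := Finsupp.equivFunOnFinite.symm fun _ => t

theorem cst_apply (t : ℕ) (i : Fin n) : cst n t i = t := rfl

theorem cst_degree (t : ℕ) : (cst n t).degree = n * t := by
  rw [Finsupp.degree_eq_sum]
  simp [cst_apply]

theorem cst_add (t r : ℕ) : cst n (t + r) = cst n r + cst n t := by
  ext i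
  simp [cst_apply, add_comm]

variable {L : Type*} [Field L] [Algebra (MvPolynomial (Fin n) k) L]

variable (k L) in
/-- A monomial as an element of the field. -/
noncomputable def mon (β : Fin n →₀ ℕ) : L :=
  algebraMap (MvPolynomial (Fin n) k) L (monomial β 1)

theorem mon_add (β γ : Fin n →₀ ℕ) : mon k L (β + γ) = mon k L β * mon k L γ := by
  rw [mon, mon, mon, ← map_mul, monomial_mul, one_mul]

theorem mon_pow (β : Fin n →₀ ℕ) (q : ℕ) : mon k L β ^ q = mon k L (q • β) := by
  rw [mon, mon, ← map_pow, monomial_pow, one_pow]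

variable {K : Type*} [Field K] [Algebra (MvPolynomial (Fin n) k) K]
  (ψ : L →ₗ[MvPolynomial (Fin n) k] K)

theorem psi_mon (β : Fin n →₀ ℕ) (y : L) :
    ψ (mon k L β * y) = (monomial β 1 : MvPolynomial (Fin n) k) • ψ y := by
  rw [mon, ← Algebra.smul_def, map_smul]

/-- The condition defining the kernel. -/
def Cond (p t c : ℕ) (d : MvPolynomial (Fin n) k) (y : L) : Prop :=
  ∀ e, ∃ a, Jd t (p ^ e) c a ∧
    algebraMap (MvPolynomial (Fin n) k) K a = d • ψ ((mon k L (cst n t) * y) ^ p ^ e)

theorem Cond.raise {p t c : ℕ} {d : MvPolynomial (Fin n) k} {y : L} (h : Cond ψ p t c d y)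
    (r : ℕ) (d' : MvPolynomial (Fin n) k) :
    Cond ψ p (t + r) (c + d'.totalDegree) (d' * d) y := by
  classical
  intro e
  obtain ⟨a, h1, h2⟩ := h e
  refine ⟨d' * (monomial (p ^ e • cst n r) 1 * a), ?_, ?_⟩
  · have h3 := h1.mul (r := r) (c' := 0) (b := monomial (p ^ e • cst n r) 1) fun δ hδ => by
      obtain rfl := mem_singleton.1 (support_monomial_subset hδ)
      refine ⟨fun i => ?_, ?_⟩
      · simp [cst_apply, mul_comm]
      · rw [map_nsmul, cst_degree, smul_eq_mul]
        exact le_of_eq (by ring)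
    exact h3.mul (r := 0) (b := d') fun δ hδ => ⟨fun i => by simp, by simpa using deg_le hδ⟩
  · rw [cst_add, mon_add, mul_assoc, mul_pow, mon_pow, psi_mon, map_mul, map_mul, h2,
      ← Algebra.smul_def, ← Algebra.smul_def, mul_smul, smul_comm d]

theorem exists_growth [IsFractionRing (MvPolynomial (Fin n) k) K] {s : L}
    (hs : IsIntegral (MvPolynomial (Fin n) k) s) :
    ∃ (D c : ℕ) (d : MvPolynomial (Fin n) k), d ≠ 0 ∧ ∀ N, ∃ a : MvPolynomial (Fin n) k,
      a.totalDegree ≤ D * N + c ∧ algebraMap _ K a = d • ψ (s ^ N) := by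
  obtain ⟨m, b, hb⟩ := Submodule.fg_iff_exists_fin_generating_family.1 hs.fg_adjoin_singleton
  have h1 : ∀ y ∈ Algebra.adjoin (MvPolynomial (Fin n) k) {s},
      ∃ r : Fin m → MvPolynomial (Fin n) k, ∑ j, r j • b j = y := fun y hy =>
    (Submodule.mem_span_range_iff_exists_fun _).1 (by rw [hb]; exact hy)
  have h2 : ∀ j, b j ∈ Algebra.adjoin (MvPolynomial (Fin n) k) {s} := fun j => by
    have : b j ∈ Submodule.span (MvPolynomial (Fin n) k) (Set.range b) :=
      Submodule.subset_span ⟨j, rfl⟩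
    rw [hb] at this
    exact this
  choose α hα using fun j => h1 (s * b j) (mul_mem (Algebra.self_mem_adjoin_singleton _ s) (h2 j))
  obtain ⟨β, hβ⟩ := h1 1 (one_mem _)
  obtain ⟨d, hd⟩ := IsLocalization.exist_integer_multiples_of_finite
    (nonZeroDivisors (MvPolynomial (Fin n) k)) fun j => ψ (b j)
  choose a ha using hd
  have h3 : ∀ N, ∃ r : Fin m → MvPolynomial (Fin n) k,
      (∀ j, (r j).totalDegree ≤ (∑ j, ∑ l, (α j l).totalDegree) * N + ∑ j, (β j).totalDegree) ∧
      ∑ j, r j • b j = s ^ N := by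
    intro N
    induction N with
    | zero =>
      refine ⟨β, fun j => ?_, by rw [hβ, pow_zero]⟩
      rw [mul_zero, zero_add]
      exact single_le_sum (f := fun j => (β j).totalDegree) (fun _ _ => Nat.zero_le _) (mem_univ j)
    | succ N ih =>
      obtain ⟨r, g1, g2⟩ := ih
      refine ⟨fun l => ∑ j, r j * α j l, fun l => totalDegree_finsetSum_le fun j _ => ?_, ?_⟩
      · have g3 : (α j l).totalDegree ≤ ∑ j, ∑ l, (α j l).totalDegree :=
          (single_le_sum (f := fun l => (α j l).totalDegree) (fun _ _ => Nat.zero_le _)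
            (mem_univ l)).trans (single_le_sum (f := fun j => ∑ l, (α j l).totalDegree)
              (fun _ _ => Nat.zero_le _) (mem_univ j))
        have g4 := totalDegree_mul (r j) (α j l)
        have g5 := g1 j
        rw [mul_add_one]
        omega
      · rw [pow_succ', ← g2, mul_sum]
        simp only [sum_smul, mul_smul, mul_smul_comm, ← hα, smul_sum]
        exact sum_comm
  refine ⟨∑ j, ∑ l, (α j l).totalDegree, ∑ j, (β j).totalDegree + ∑ j, (a j).totalDegree, d,
    nonZeroDivisors.coe_ne_zero d, fun N => ?_⟩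
  obtain ⟨r, g1, g2⟩ := h3 N
  refine ⟨∑ j, r j * a j, totalDegree_finsetSum_le fun j _ => ?_, ?_⟩
  · have g3 : (a j).totalDegree ≤ ∑ j, (a j).totalDegree :=
      single_le_sum (f := fun j => (a j).totalDegree) (fun _ _ => Nat.zero_le _) (mem_univ j)
    have g4 := totalDegree_mul (r j) (a j)
    have g5 := g1 j
    omega
  · rw [← g2, map_sum, map_sum, smul_sum]
    refine sum_congr rfl fun j _ => ?_
    rw [map_mul, ha, map_smul, ← Algebra.smul_def, smul_comm]

variable [Algebra k L] [IsScalarTower k (MvPolynomial (Fin n) k) L]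

/-- The subspace on which the functional vanishes. -/
def Wk (p : ℕ) [Fact p.Prime] [CharP L p] : Submodule k L where
  carrier := {y | ∃ t c d, d ≠ 0 ∧ Cond ψ p t c d y}
  zero_mem' := ⟨0, 0, 1, one_ne_zero, fun e => ⟨0, fun γ h => by simp at h, by
    rw [mul_zero, zero_pow (pow_pos (Fact.out : p.Prime).pos e).ne', map_zero, map_zero,
      smul_zero]⟩⟩
  add_mem' := by
    rintro y y' ⟨t, c, d, d0, h⟩ ⟨t', c', d', d0', h'⟩
    refine ⟨t + t', c + d'.totalDegree + (c' + d.totalDegree), d' * d, mul_ne_zero d0' d0,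
      fun e => ?_⟩
    obtain ⟨a, h1, h2⟩ := h.raise ψ t' d' e
    obtain ⟨a', h1', h2'⟩ := h'.raise ψ t d e
    rw [add_comm t' t] at h1' h2'
    refine ⟨a + a', h1.add h1', ?_⟩
    rw [map_add, h2, h2', mul_add, add_pow_char_pow, map_add, smul_add, mul_comm d]
  smul_mem' := by
    rintro κ y ⟨t, c, d, d0, h⟩
    refine ⟨t, c, d, d0, fun e => ?_⟩
    obtain ⟨a, h1, h2⟩ := h e
    refine ⟨C (κ ^ p ^ e) * a, fun γ hγ => h1 γ ?_, ?_⟩
    · rw [← smul_eq_C_mul] at hγ
      exact support_smul hγ
    · rw [mul_smul_comm, smul_pow, ← algebraMap_smul (MvPolynomial (Fin n) k) (κ ^ p ^ e),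
        map_smul, map_mul, h2, ← Algebra.smul_def, smul_comm d, algebraMap_eq]

theorem one_notMem (p : ℕ) [Fact p.Prime] [CharP L p]
    [IsFractionRing (MvPolynomial (Fin n) k) K] (h1 : ψ 1 = 1) : (1 : L) ∉ Wk ψ p := by
  rintro ⟨t, c, d, d0, h⟩
  obtain ⟨a, h2, h3⟩ := h (c + d.totalDegree)
  have h4 : c + d.totalDegree < p ^ (c + d.totalDegree) :=
    Nat.lt_pow_self (Fact.out : p.Prime).one_lt
  generalize p ^ (c + d.totalDegree) = q at h2 h3 h4
  rw [mul_pow, mon_pow, one_pow, psi_mon, h1, ← mul_smul, ← Algebra.algebraMap_eq_smul_one] at h3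
  obtain rfl := IsFractionRing.injective _ K h3
  obtain ⟨δ, hδ⟩ := support_nonempty.2 d0
  have h5 := deg_le hδ
  rcases h2 (δ + q • cst n t) (by
    rw [mem_support_iff, coeff_mul_monomial, mul_one]
    exact mem_support_iff.1 hδ) with ⟨i, hi⟩ | e
  · have h6 := Finsupp.le_degree i δ
    rw [Finsupp.add_apply, Finsupp.smul_apply, cst_apply, smul_eq_mul] at hi
    nlinarith
  · rw [map_add, map_nsmul, cst_degree, smul_eq_mul] at e
    nlinarith

theorem mem_Wk (p : ℕ) [Fact p.Prime] [CharP L p] {s : L} {D c : ℕ} {d : MvPolynomial (Fin n) k}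
    (d0 : d ≠ 0) (h : ∀ N, ∃ a : MvPolynomial (Fin n) k,
      a.totalDegree ≤ D * N + c ∧ algebraMap _ K a = d • ψ (s ^ N))
    (hm : ∀ β : Fin n →₀ ℕ, mon k L β ≠ 0) (α β : Fin n →₀ ℕ)
    (hα : (∃ i, α i < β i) ∨ β.degree + D < α.degree) :
    (mon k L α)⁻¹ * (mon k L β * s) ∈ Wk ψ p := by
  classical
  refine ⟨α.degree, c, d, d0, fun e => ?_⟩
  obtain ⟨a, h1, h2⟩ := h (p ^ e)
  have h3 : α ≤ cst n α.degree := fun i => Finsupp.le_degree i α
  obtain ⟨ε, hε⟩ := exists_add_of_le h3
  refine ⟨monomial (p ^ e • (ε + β)) 1 * a, fun γ hγ => ?_, ?_⟩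
  · obtain ⟨δ, g1, η, g2, rfl⟩ := mem_add.1 (support_mul _ _ hγ)
    obtain rfl := mem_singleton.1 (support_monomial_subset g1)
    rcases hα with ⟨i, hi⟩ | hi
    · refine Or.inl ⟨i, ?_⟩
      have g3 : α.degree = α i + ε i := congrArg (fun f => f i) hε
      simp only [Finsupp.add_apply, Finsupp.smul_apply, smul_eq_mul]
      have g4 : α.degree + 1 ≤ ε i + β i := by omega
      rw [mul_comm]
      exact (Nat.mul_le_mul_left _ g4).trans (Nat.le_add_right _ _)
    · refine Or.inr ?_
      have g3 : n * α.degree = α.degree + ε.degree := by rw [← cst_degree, hε, map_add]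
      have g4 := deg_le g2
      rw [map_add, map_nsmul, map_add, smul_eq_mul, g3]
      have g5 := Nat.mul_le_mul_left (p ^ e) (Nat.succ_le_of_lt hi)
      nlinarith
  · have g : mon k L (cst n α.degree) * ((mon k L α)⁻¹ * (mon k L β * s)) =
        mon k L (ε + β) * s := by
      rw [hε, mon_add, mon_add]
      have := hm α
      field_simp
    rw [g, mul_pow, mon_pow, psi_mon, map_mul, h2, ← Algebra.smul_def, smul_comm d]

theorem solid_poly (p : ℕ) [Fact p.Prime] [CharP k p]
    (hinj : Function.Injective (algebraMap (MvPolynomial (Fin n) k) L)) :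
    Solid (MvPolynomial (Fin n) k) L := by
  classical
  have : CharP L p := charP_of_injective_algebraMap (algebraMap k L).injective p
  have : FaithfulSMul (MvPolynomial (Fin n) k) L := (faithfulSMul_iff_algebraMap_injective _ _).2 hinj
  let : Algebra (FractionRing (MvPolynomial (Fin n) k)) L := FractionRing.liftAlgebra _ L
  obtain ⟨ψ0, hψ⟩ := LinearMap.exists_leftInverse_of_injective
    (Algebra.linearMap (FractionRing (MvPolynomial (Fin n) k)) L)
    (LinearMap.ker_eq_bot.2 (algebraMap (FractionRing (MvPolynomial (Fin n) k)) L).injective)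
  have h1 : ψ0 1 = 1 := by simpa using LinearMap.congr_fun hψ 1
  obtain ⟨ψ, hψ1⟩ : ∃ ψ : L →ₗ[MvPolynomial (Fin n) k] FractionRing (MvPolynomial (Fin n) k),
      ψ 1 = 1 := ⟨ψ0.restrictScalars _, h1⟩
  obtain ⟨lam, hl1, hl⟩ := Submodule.exists_le_ker_of_notMem (one_notMem ψ p hψ1)
  have hm : ∀ β : Fin n →₀ ℕ, mon k L β ≠ 0 := fun β =>
    (map_ne_zero_iff _ hinj).2 (by simp)
  have m0 : mon k L (0 : Fin n →₀ ℕ) = 1 := by rw [mon, monomial_zero', C_1, map_one]
  have hex : ∀ s : L, ∃ a : MvPolynomial (Fin n) k, IsIntegral (MvPolynomial (Fin n) k) s →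
      ∀ α, coeff α a = lam ((mon k L α)⁻¹ * s) := by
    intro s
    by_cases hs : IsIntegral (MvPolynomial (Fin n) k) s
    · obtain ⟨D, c, d, d0, h⟩ := exists_growth ψ hs
      refine ⟨∑ β ∈ (Finsupp.finite_of_degree_le D).toFinset,
        monomial β (lam ((mon k L β)⁻¹ * s)), fun _ α => ?_⟩
      simp only [coeff_sum, coeff_monomial]
      rw [sum_ite_eq']
      split_ifs with g
      · rfl
      · have g2 := mem_Wk ψ p d0 h hm α 0 (Or.inr (by simpa using g))
        rw [m0, one_mul] at g2
        exact (hl g2).symm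
    · exact ⟨0, fun h => absurd h hs⟩
  choose f hf using hex
  have hadd : ∀ s t, IsIntegral (MvPolynomial (Fin n) k) s → IsIntegral (MvPolynomial (Fin n) k) t →
      f (s + t) = f s + f t := fun s t hs ht => by
    ext α
    rw [coeff_add, hf s hs, hf t ht, hf _ (hs.add ht), mul_add, map_add]
  refine ⟨f, hadd, fun a => ?_, fun h => hl1 ?_⟩
  · induction a using MvPolynomial.induction_on with
    | C κ =>
      intro s hs
      ext α
      rw [coeff_C_mul, hf s hs, hf _ (isIntegral_algebraMap.mul hs), ← algebraMap_eq,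
        ← IsScalarTower.algebraMap_apply, ← Algebra.smul_def, mul_smul_comm, map_smul, smul_eq_mul]
    | add a b ha hb =>
      intro s hs
      rw [map_add, add_mul, hadd _ _ (isIntegral_algebraMap.mul hs) (isIntegral_algebraMap.mul hs),
        ha s hs, hb s hs, add_mul]
    | mul_X a i ha =>
      intro s hs
      rw [map_mul, mul_assoc, ha _ (isIntegral_algebraMap.mul hs), mul_assoc]
      congr 1
      ext α
      rw [coeff_X_mul', hf _ (isIntegral_algebraMap.mul hs)]
      change lam (_ * (mon k L (Finsupp.single i 1) * s)) = _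
      split_ifs with g
      · have g2 : α = Finsupp.single i 1 + (α - Finsupp.single i 1) :=
          (add_tsub_cancel_of_le (Finsupp.single_le_iff.2
            (Nat.pos_of_ne_zero (Finsupp.mem_support_iff.1 g)))).symm
        rw [hf s hs]
        nth_rewrite 1 [g2]
        rw [mon_add]
        congr 1
        have := hm (Finsupp.single i 1)
        have := hm (α - Finsupp.single i 1)
        field_simp
      · obtain ⟨D, c, d, d0, h⟩ := exists_growth ψ hs
        refine hl (mem_Wk ψ p d0 h hm α _ (Or.inl ⟨i, ?_⟩))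
        rw [Finsupp.notMem_support_iff.1 g, Finsupp.single_eq_same]
        exact one_pos
  · have g := hf 1 isIntegral_one 0
    rw [h, m0, inv_one, one_mul, coeff_zero] at g
    exact g.symm

end Pool.Agent.Lib.MP_f762b7_al.Gen
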