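import Pool.Agent.Lib.MP_f762b7_al.Split

set_option autoImplicit false

/-! The inclusion of `k[X]` in its integral closure in a field has a linear retraction. -/

namespace Pool.Agent.Lib.MP_f762b7_al

open Polynomial

variable {k L : Type*} [Field k] [Field L] [Algebra k L] [Algebra k[X] L] [IsScalarTower k k[X] L]

theorem exists_retraction (hx : Transcendental k (algebraMap k[X] L X)) :
    ∃ f : ↥(integralClosure k[X] L) →ₗ[k[X]] k[X], f 1 = 1 := by
  obtain ⟨lam, hlam1, hlam⟩ := Submodule.exists_le_ker_of_notMem (one_notMem hx)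
  set x := algebraMap k[X] L X with hxdef
  have hx0 : x ≠ 0 := by
    intro h0
    apply hx
    rw [h0]
    exact isAlgebraic_zero
  have hex : ∀ s : integralClosure k[X] L, ∃ q : k[X], ∀ n, q.coeff n = lam (x⁻¹ ^ n * s) := by
    intro s
    obtain ⟨N, hN⟩ := exists_bound s.2
    refine ⟨∑ i ∈ Finset.range N, monomial i (lam (x⁻¹ ^ i * s)), fun n => ?_⟩
    rw [finsetSum_coeff]
    simp only [coeff_monomial]
    rw [Finset.sum_ite_eq']
    split_ifs with h
    · rfl
    · rw [Finset.mem_range, not_lt] at h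
      exact (hlam (Submodule.mem_sup_right (hN n h))).symm
  choose φ hφ using hex
  have hadd : ∀ s t, φ (s + t) = φ s + φ t := by
    intro s t
    ext n
    rw [coeff_add, hφ, hφ, hφ, ← map_add]
    congr 1
    push_cast
    ring
  have hC : ∀ (c : k) s, φ (C c • s) = C c * φ s := by
    intro c s
    ext n
    rw [coeff_C_mul, hφ, hφ, ← smul_eq_mul c, ← map_smul]
    congr 1
    rw [Subalgebra.coe_smul, Algebra.smul_def, Algebra.smul_def,
      IsScalarTower.algebraMap_apply k k[X] L, Polynomial.algebraMap_eq]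
    ring
  have hX : ∀ s, φ ((X : k[X]) • s) = X * φ s := by
    intro s
    ext n
    rcases n with _ | n
    · rw [hφ, mul_coeff_zero, coeff_X_zero, zero_mul, pow_zero, one_mul]
      refine hlam (Submodule.mem_sup_left ⟨s, s.2, ?_⟩)
      rw [Subalgebra.coe_smul, Algebra.smul_def]
    · rw [coeff_X_mul, hφ, hφ]
      congr 1
      rw [Subalgebra.coe_smul, Algebra.smul_def, ← hxdef, pow_succ]
      field_simp
  have hsmul : ∀ (r : k[X]) s, φ (r • s) = r * φ s := by
    intro r
    induction r using Polynomial.induction_on with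
    | C c => exact hC c
    | add p q hp hq => intro s; rw [add_smul, hadd, hp, hq, add_mul]
    | monomial n c h =>
      intro s
      have : (C c * X ^ (n + 1) : k[X]) = X * (C c * X ^ n) := by ring
      rw [this, mul_smul, hX, h]
      ring
  have h1 : φ 1 = C (lam 1) := by
    ext n
    rw [hφ]
    rcases n with _ | n
    · simp
    · rw [coeff_C_succ]
      refine hlam (Submodule.mem_sup_right fun V _ hxV => ?_)
      have h2 : 1 < V.valuation x := by
        rw [← V.valuation_le_one_iff] at hxV
        exact lt_of_not_ge hxV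
      rw [OneMemClass.coe_one, mul_one, map_pow, map_inv₀, inv_pow,
        inv_lt_one₀ (pow_pos (lt_trans zero_lt_one h2) _)]
      exact one_lt_pow₀ h2 (by omega)
  refine ⟨(C (lam 1)⁻¹ : k[X]) • (⟨⟨φ, hadd⟩, hsmul⟩ : ↥(integralClosure k[X] L) →ₗ[k[X]] k[X]), ?_⟩
  change C (lam 1)⁻¹ * φ 1 = 1
  rw [h1, ← C_mul, inv_mul_cancel₀ hlam1, C_1]

end Pool.Agent.Lib.MP_f762b7_al
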