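import Mathlib

set_option autoImplicit false

/-!
The integral closure of `k[X]` in any field `L` over it in which `X` stays transcendental
retracts `k[X]`-linearly onto `k[X]`.

Choose a `k`-linear functional on `L` that is nonzero at `1`, kills `X` times the integral closure
and kills every element that vanishes at all places of `L` over infinity.
-/

namespace Pool.Agent.Lib.MP_f762b7_al

open Polynomial

/-- A root of a monic polynomial has valuation at most any bound `M ≥ 1` for the coefficients. -/
theorem val_le_of_monic {A L : Type*} [CommRing A] [Field L] [Algebra A L]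
    (V : ValuationSubring L) (s : L) (p : A[X]) (hp : p.Monic) (hs : aeval s p = 0)
    (M : V.ValueGroup) (hM : 1 ≤ M)
    (hc : ∀ i, V.valuation (algebraMap A L (p.coeff i)) ≤ M) : V.valuation s ≤ M := by
  by_contra hlt
  push Not at hlt
  have h1 : 1 < V.valuation s := lt_of_le_of_lt hM hlt
  have hpos : 0 < V.valuation s := lt_trans zero_lt_one h1
  rcases subsingleton_or_nontrivial A with hA | hA
  · have h01 : (1 : L) = 0 := by
      rw [← map_one (algebraMap A L), Subsingleton.elim (1 : A) 0, map_zero]
    exact one_ne_zero h01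
  rw [hp.as_sum] at hs
  simp only [map_add, map_pow, aeval_X, map_sum, map_mul, aeval_C] at hs
  have hs' : s ^ p.natDegree =
      - ∑ i ∈ Finset.range p.natDegree, algebraMap A L (p.coeff i) * s ^ i :=
    eq_neg_of_add_eq_zero_left hs
  have hne : V.valuation s ^ p.natDegree ≠ 0 := pow_ne_zero _ hpos.ne'
  have hlt' : V.valuation (∑ i ∈ Finset.range p.natDegree, algebraMap A L (p.coeff i) * s ^ i)
      < V.valuation s ^ p.natDegree := by
    apply Valuation.map_sum_lt _ hne
    intro i hi
    rw [Finset.mem_range] at hi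
    rw [map_mul, map_pow]
    calc V.valuation (algebraMap A L (p.coeff i)) * V.valuation s ^ i
        ≤ M * V.valuation s ^ i := by gcongr; exact hc i
      _ < V.valuation s * V.valuation s ^ i := by
          exact mul_lt_mul_of_pos_right hlt (pow_pos hpos i)
      _ = V.valuation s ^ (i + 1) := by rw [pow_succ']
      _ ≤ V.valuation s ^ p.natDegree := pow_le_pow_right₀ h1.le hi
  have : V.valuation (s ^ p.natDegree) < V.valuation s ^ p.natDegree := by
    rw [hs', Valuation.map_neg]; exact hlt'
  rw [map_pow] at this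
  exact lt_irrefl _ this

section
variable {k L : Type*} [Field k] [Field L] [Algebra k L]

/-- An element in every valuation subring containing `k` is integral over `k`. -/
theorem exists_valuationSubring_of_not_isIntegral {y : L} (hy : ¬ IsIntegral k y) :
    ∃ V : ValuationSubring L, (∀ c : k, algebraMap k L c ∈ V) ∧ y ∉ V := by
  have : IsIntegrallyClosedIn (integralClosure k L).toSubring L :=
    inferInstanceAs (IsIntegrallyClosedIn (integralClosure k L) L)
  have hy' : y ∉ (integralClosure k L).toSubring := hy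
  obtain ⟨V, hV, hyV⟩ := Subring.exists_le_valuationSubring_of_isIntegrallyClosedIn hy'
  exact ⟨V, fun c => hV ((integralClosure k L).algebraMap_mem c), hyV⟩

theorem mem_of_isIntegral {A : Type*} [CommRing A] [Algebra A L] (V : ValuationSubring L)
    (hA : ∀ a : A, algebraMap A L a ∈ V) {s : L} (hs : IsIntegral A s) : s ∈ V := by
  obtain ⟨p, hp, hps⟩ := hs
  rw [← V.valuation_le_one_iff]
  refine val_le_of_monic V s p hp (by rw [aeval_def]; exact hps) 1 le_rfl fun i => ?_
  rw [V.valuation_le_one_iff]
  exact hA _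

variable [Algebra k[X] L] [IsScalarTower k k[X] L]

theorem algebraMap_eq_aeval (q : k[X]) :
    algebraMap k[X] L q = aeval (algebraMap k[X] L X) q := by
  rw [aeval_algebraMap_apply, aeval_X_left_apply]

theorem val_poly_le (V : ValuationSubring L) (hV : ∀ c : k, algebraMap k L c ∈ V)
    (hx : 1 ≤ V.valuation (algebraMap k[X] L X)) (q : k[X]) (N : ℕ) (hq : q.natDegree ≤ N) :
    V.valuation (algebraMap k[X] L q) ≤ V.valuation (algebraMap k[X] L X) ^ N := by
  rw [algebraMap_eq_aeval, aeval_eq_sum_range]
  apply Valuation.map_sum_le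
  intro i hi
  rw [Finset.mem_range] at hi
  rw [Algebra.smul_def, map_mul, map_pow]
  calc V.valuation (algebraMap k L (q.coeff i)) * V.valuation (algebraMap k[X] L X) ^ i
      ≤ 1 * V.valuation (algebraMap k[X] L X) ^ i := by
        gcongr
        exact (V.valuation_le_one_iff _).2 (hV _)
    _ = V.valuation (algebraMap k[X] L X) ^ i := one_mul _
    _ ≤ V.valuation (algebraMap k[X] L X) ^ N := pow_le_pow_right₀ hx (by omega)

theorem poly_mem (V : ValuationSubring L) (hV : ∀ c : k, algebraMap k L c ∈ V)
    (hx : algebraMap k[X] L X ∈ V) (q : k[X]) : algebraMap k[X] L q ∈ V := by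
  rw [algebraMap_eq_aeval, aeval_eq_sum_range]
  refine sum_mem fun i _ => ?_
  rw [Algebra.smul_def]
  exact mul_mem (hV _) (pow_mem hx _)

variable (k L) in
/-- Elements that vanish at every place of `L` over infinity. -/
def Wneg : Submodule k L where
  carrier := {s | ∀ V : ValuationSubring L, (∀ c : k, algebraMap k L c ∈ V) →
    algebraMap k[X] L X ∉ V → V.valuation s < 1}
  add_mem' := fun {a b} ha hb V hV hx => Valuation.map_add_lt _ (ha V hV hx) (hb V hV hx)
  zero_mem' := fun V _ _ => by simp
  smul_mem' := fun c s hs V hV hx => by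
    rw [Algebra.smul_def, map_mul]
    calc V.valuation (algebraMap k L c) * V.valuation s ≤ 1 * V.valuation s := by
          gcongr
          exact (V.valuation_le_one_iff _).2 (hV _)
      _ = V.valuation s := one_mul _
      _ < 1 := hs V hV hx

variable (k L) in
/-- `X` times the integral closure of `k[X]`. -/
def Wpos : Submodule k L where
  carrier := {s | ∃ a : L, IsIntegral k[X] a ∧ s = algebraMap k[X] L X * a}
  add_mem' := by
    rintro _ _ ⟨a, ha, rfl⟩ ⟨b, hb, rfl⟩
    exact ⟨a + b, ha.add hb, by ring⟩
  zero_mem' := ⟨0, isIntegral_zero, by simp⟩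
  smul_mem' := by
    rintro c _ ⟨a, ha, rfl⟩
    refine ⟨algebraMap k[X] L (C c) * a, isIntegral_algebraMap.mul ha, ?_⟩
    rw [Algebra.smul_def, IsScalarTower.algebraMap_apply k k[X] L, Polynomial.algebraMap_eq]
    ring

theorem one_notMem (hx : Transcendental k (algebraMap k[X] L X)) :
    (1 : L) ∉ Wpos k L ⊔ Wneg k L := by
  intro h
  obtain ⟨f, ⟨a, ha, hf⟩, w, hw, hsum⟩ := Submodule.mem_sup.1 h
  set x := algebraMap k[X] L X with hxdef
  have hfint : IsIntegral k f := by
    by_contra hn
    obtain ⟨V, hV, hfV⟩ := exists_valuationSubring_of_not_isIntegral hn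
    apply hfV
    by_cases hxV : x ∈ V
    · rw [hf]
      exact mul_mem hxV (mem_of_isIntegral V (poly_mem V hV hxV) ha)
    · have : f = 1 - w := by rw [← hsum]; ring
      rw [this]
      exact sub_mem (one_mem _) ((V.valuation_le_one_iff _).1 (hw V hV hxV).le)
  by_cases hf0 : f = 0
  · have hw1 : w = 1 := by rw [← hsum, hf0, zero_add]
    obtain ⟨V, hV, hxV⟩ := exists_valuationSubring_of_not_isIntegral
      (fun h => hx (IsIntegral.isAlgebraic h))
    have := hw V hV hxV
    rw [hw1, map_one] at this
    exact lt_irrefl _ this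
  · have hxinv : ¬ IsIntegral k x⁻¹ := fun h => hx (by simpa using h.isAlgebraic.inv)
    obtain ⟨V, hV, hxV⟩ := exists_valuationSubring_of_not_isIntegral hxinv
    have hxV' : x ∈ V := (V.mem_or_inv_mem x).resolve_right hxV
    have haV : a ∈ V := mem_of_isIntegral V (poly_mem V hV hxV') ha
    have hfinv : f⁻¹ ∈ V := mem_of_isIntegral V hV (hfint.isAlgebraic.inv.isIntegral)
    have hx0 : x ≠ 0 := by
      intro h0
      apply hf0
      rw [hf, h0, zero_mul]
    have ha0 : a ≠ 0 := by
      intro h0
      apply hf0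
      rw [hf, h0, mul_zero]
    apply hxV
    have : x⁻¹ = a * f⁻¹ := by
      rw [hf]
      field_simp
    rw [this]
    exact mul_mem haV hfinv

theorem exists_bound {s : L} (hs : IsIntegral k[X] s) :
    ∃ N : ℕ, ∀ n, N ≤ n → (algebraMap k[X] L X)⁻¹ ^ n * s ∈ Wneg k L := by
  obtain ⟨p, hp, hps⟩ := hs
  set x := algebraMap k[X] L X with hxdef
  obtain ⟨N, hN⟩ : ∃ N : ℕ, ∀ i, (p.coeff i).natDegree ≤ N := by
    refine ⟨p.support.sup fun i => (p.coeff i).natDegree, fun i => ?_⟩
    by_cases hi : i ∈ p.support
    · exact Finset.le_sup (f := fun i => (p.coeff i).natDegree) hi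
    · rw [notMem_support_iff.1 hi]; simp
  refine ⟨N + 1, fun n hn V hV hxV => ?_⟩
  have h1 : 1 < V.valuation x := by
    rw [← V.valuation_le_one_iff] at hxV
    exact lt_of_not_ge hxV
  have hpos : 0 < V.valuation x := lt_trans zero_lt_one h1
  have hle : V.valuation s ≤ V.valuation x ^ N :=
    val_le_of_monic V s p hp (by rw [aeval_def]; exact hps) _ (one_le_pow₀ h1.le)
      fun i => val_poly_le V hV h1.le _ N (hN i)
  rw [map_mul, map_pow, map_inv₀, inv_pow, inv_mul_lt_iff₀ (pow_pos hpos n), mul_one]
  exact lt_of_le_of_lt hle (pow_lt_pow_right₀ h1 (by omega))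

theorem exists_linearMap (hx : Transcendental k (algebraMap k[X] L X)) :
    ∃ f : ↥(integralClosure k[X] L) →ₗ[k[X]] k[X], f ≠ 0 := by
  obtain ⟨lam, hlam1, hlam⟩ := Submodule.exists_le_ker_of_notMem (one_notMem hx)
  set x := algebraMap k[X] L X with hxdef
  have hx0 : x ≠ 0 := by
    intro h0
    apply hx
    rw [h0]
    exact isAlgebraic_zero
  have hex : ∀ s : integralClosure k[X] L, ∃ q : k[X], ∀ n, q.coeff n = lam (x⁻¹ ^ n * s) := by
    intro s
    obtain ⟨N, hN⟩ := exists_bound s.2
    refine ⟨∑ i ∈ Finset.range N, monomial i (lam (x⁻¹ ^ i * s)), fun n => ?_⟩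
    rw [finsetSum_coeff]
    simp only [coeff_monomial]
    rw [Finset.sum_ite_eq']
    split_ifs with h
    · rfl
    · rw [Finset.mem_range, not_lt] at h
      exact (hlam (Submodule.mem_sup_right (hN n h))).symm
  choose φ hφ using hex
  have hadd : ∀ s t, φ (s + t) = φ s + φ t := by
    intro s t
    ext n
    rw [coeff_add, hφ, hφ, hφ, ← map_add]
    congr 1
    push_cast
    ring
  have hC : ∀ (c : k) s, φ (C c • s) = C c * φ s := by
    intro c s
    ext n
    rw [coeff_C_mul, hφ, hφ, ← smul_eq_mul c, ← map_smul]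
    congr 1
    rw [Subalgebra.coe_smul, Algebra.smul_def, Algebra.smul_def,
      IsScalarTower.algebraMap_apply k k[X] L, Polynomial.algebraMap_eq]
    ring
  have hX : ∀ s, φ ((X : k[X]) • s) = X * φ s := by
    intro s
    ext n
    rcases n with _ | n
    · rw [hφ, mul_coeff_zero, coeff_X_zero, zero_mul, pow_zero, one_mul]
      refine hlam (Submodule.mem_sup_left ⟨s, s.2, ?_⟩)
      rw [Subalgebra.coe_smul, Algebra.smul_def]
    · rw [coeff_X_mul, hφ, hφ]
      congr 1
      rw [Subalgebra.coe_smul, Algebra.smul_def, ← hxdef, pow_succ]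
      field_simp
  have hsmul : ∀ (r : k[X]) s, φ (r • s) = r * φ s := by
    intro r
    induction r using Polynomial.induction_on with
    | C c => exact hC c
    | add p q hp hq => intro s; rw [add_smul, hadd, hp, hq, add_mul]
    | monomial n c h =>
      intro s
      have : (C c * X ^ (n + 1) : k[X]) = X * (C c * X ^ n) := by ring
      rw [this, mul_smul, hX, h]
      ring
  refine ⟨⟨⟨φ, hadd⟩, hsmul⟩, fun h0 => hlam1 ?_⟩
  have h1 : φ 1 = 0 := congrArg (fun g : ↥(integralClosure k[X] L) →ₗ[k[X]] k[X] => g 1) h0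
  have h2 := hφ 1 0
  rw [h1] at h2
  simpa using h2.symm

end

end Pool.Agent.Lib.MP_f762b7_al
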