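import Pool.Agent.Lib.MP_f762b7_al.Poly

/-! Solidity of the integral closure passes to finite extensions and to localizations. -/

namespace Pool.Agent.Lib.MP_f762b7_al.Gen

open Finset

variable {A R L : Type*} [CommRing A] [CommRing R] [Field L] [Algebra A R] [Algebra R L]
  [Algebra A L] [IsScalarTower A R L]

theorem solid_finite [IsDomain A] [IsDomain R] [Module.Finite A R]
    (hinj : Function.Injective (algebraMap A R)) (h : Solid A L) : Solid R L := by
  classical
  obtain ⟨f, fa, fm, f1⟩ := h
  have iR : ∀ y : R, IsIntegral A (algebraMap R L y) := fun y =>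
    (Algebra.IsIntegral.isIntegral y).algebraMap
  have iL : ∀ s : L, IsIntegral R s → IsIntegral A s := fun s hs => isIntegral_trans s hs
  have hφ : ∀ s : L, IsIntegral A s → ∃ φ : R →ₗ[A] A, ∀ y, φ y = f (algebraMap R L y * s) :=
    fun s hs => ⟨⟨⟨fun y => f (algebraMap R L y * s), fun y y' => by
      rw [map_add, add_mul, fa _ _ ((iR y).mul hs) ((iR y').mul hs)]⟩, fun a y => by
      change f (algebraMap R L (a • y) * s) = a * f (algebraMap R L y * s)
      rw [Algebra.smul_def, map_mul, ← IsScalarTower.algebraMap_apply, mul_assoc,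
        fm _ _ ((iR y).mul hs)]⟩, fun _ => rfl⟩
  obtain ⟨I, hI, hmax⟩ := exists_maximal_linearIndepOn A (id : R → R)
  have : Finite I := LinearIndependent.finite (R := A) hI
  have := Fintype.ofFinite I
  have hext : ∀ φ φ' : R →ₗ[A] A, (∀ i : I, φ i = φ' i) → ∀ y, φ y = φ' y := fun φ φ' h y => by
    by_cases hy : y ∈ I
    · exact h ⟨y, hy⟩
    · obtain ⟨a, a0, ha⟩ := hmax y hy
      have h2 := LinearMap.eqOn_span (f := φ) (g := φ') (fun z hz => by
        obtain ⟨w, hw, rfl⟩ := hz
        exact h ⟨w, hw⟩) ha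
      rw [map_smul, map_smul, smul_eq_mul, smul_eq_mul] at h2
      exact mul_left_cancel₀ a0 h2
  obtain ⟨φ, hφ1⟩ := hφ 1 isIntegral_one
  have φ1 : φ 1 ≠ 0 := by rwa [hφ1, map_one, mul_one]
  have nd : ∀ z : R, (∀ i : I, φ (i * z) = 0) → z = 0 := fun z hz => by
    by_contra z0
    have h2 := hext (φ.comp (LinearMap.mulRight A z)) 0 hz
    have : FaithfulSMul A R := (faithfulSMul_iff_algebraMap_injective _ _).2 hinj
    obtain ⟨a, a0, y, hy⟩ := (Algebra.IsIntegral.isIntegral (R := A) z).isAlgebraic.exists_nonzero_dvd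
      (mem_nonZeroDivisors_of_ne_zero z0)
    have h3 : φ (y * z) = 0 := h2 y
    rw [mul_comm, ← hy, Algebra.algebraMap_eq_smul_one, map_smul, smul_eq_mul] at h3
    exact mul_ne_zero a0 φ1 h3
  obtain ⟨Γ, hΓ⟩ : ∃ Γ : Matrix I I A, ∀ i j, Γ i j = φ (i * j) :=
    ⟨Matrix.of fun i j => φ (i * j), fun _ _ => rfl⟩
  have hv : ∀ (v : I → A) (i : I), φ (i * ∑ j, v j • (j : R)) = Γ.mulVec v i := fun v i => by
    rw [mul_sum, map_sum, Matrix.mulVec, dotProduct]
    exact sum_congr rfl fun j _ => by rw [mul_smul_comm, map_smul, smul_eq_mul, hΓ, mul_comm]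
  have det0 : Γ.det ≠ 0 := fun h0 => by
    obtain ⟨v, v0, h2⟩ := Matrix.exists_mulVec_eq_zero_iff.2 h0
    exact v0 (funext (Fintype.linearIndependent_iff.1 hI v
      (nd _ fun i => (hv v i).trans (congrFun h2 i))))
  obtain ⟨g, hg⟩ : ∃ g : L → R, ∀ s, IsIntegral A s → ∀ y,
      φ (y * g s) = Γ.det * f (algebraMap R L y * s) := by
    refine ⟨fun s => ∑ j, Γ.adjugate.mulVec (fun i : I => f (algebraMap R L i * s)) j • (j : R),
      fun s hs y => ?_⟩
    obtain ⟨φ', hφ'⟩ := hφ s hs
    rw [← hφ']
    refine hext (φ.comp (LinearMap.mulRight A _)) (Γ.det • φ') (fun i => ?_) y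
    refine (hv _ i).trans ?_
    rw [Matrix.mulVec_mulVec, Matrix.mul_adjugate, Matrix.smul_mulVec, Matrix.one_mulVec,
      LinearMap.smul_apply, hφ']
    rfl
  refine ⟨g, fun s t hs ht => sub_eq_zero.1 (nd _ fun i => ?_),
    fun a s hs => sub_eq_zero.1 (nd _ fun i => ?_), fun h0 => ?_⟩
  · rw [mul_sub, mul_add, map_sub, map_add, hg _ (iL _ (hs.add ht)), hg _ (iL _ hs),
      hg _ (iL _ ht), mul_add, fa _ _ ((iR _).mul (iL _ hs)) ((iR _).mul (iL _ ht)), mul_add,
      sub_self]
  · rw [mul_sub, ← mul_assoc, map_sub, hg _ ((iR a).mul (iL _ hs)), hg _ (iL _ hs), map_mul,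
      mul_assoc, sub_self]
  · have h2 := hg 1 isIntegral_one 1
    rw [h0, mul_zero, map_zero, map_one, mul_one] at h2
    exact mul_ne_zero det0 f1 h2.symm

theorem solid_loc (M : Submonoid A) [IsLocalization M R]
    (hinj : Function.Injective (algebraMap A R)) (h : Solid A L) : Solid R L := by
  obtain ⟨f, fa, fm, f1⟩ := h
  have hm : ∀ s : L, IsIntegral R s → ∃ m : M, IsIntegral A (algebraMap A L m * s) := fun s hs => by
    obtain ⟨m, h2⟩ := hs.exists_multiple_integral_of_isLocalization M
    exact ⟨m, by rwa [Submonoid.smul_def, Algebra.smul_def] at h2⟩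
  have cc : ∀ (m : M) (y z : R), algebraMap A R m * y = algebraMap A R m * z → y = z :=
    fun m y z => (IsLocalization.map_units R m).mul_left_cancel
  have hex : ∀ s : L, ∃ y : R, IsIntegral R s → ∀ a : A, IsIntegral A (algebraMap A L a * s) →
      algebraMap A R a * y = algebraMap A R (f (algebraMap A L a * s)) := fun s => by
    by_cases hs : IsIntegral R s
    · obtain ⟨m, h2⟩ := hm s hs
      refine ⟨IsLocalization.mk' R (f (algebraMap A L m * s)) m, fun _ a ha => cc m _ _ ?_⟩
      rw [mul_left_comm, IsLocalization.mk'_spec', ← map_mul, ← map_mul, ← fm _ _ h2, ← fm _ _ ha,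
        mul_left_comm]
    · exact ⟨0, fun h => absurd h hs⟩
  choose g hg using hex
  refine ⟨g, fun s t hs ht => ?_, fun r s hs => ?_, fun h0 => ?_⟩
  · obtain ⟨m, h1⟩ := hm s hs
    obtain ⟨m', h2⟩ := hm t ht
    have h3 : IsIntegral A (algebraMap A L (m * m' : M) * s) := by
      rw [Submonoid.coe_mul, map_mul, mul_comm (algebraMap A L m), mul_assoc]
      exact isIntegral_algebraMap.mul h1
    have h4 : IsIntegral A (algebraMap A L (m * m' : M) * t) := by
      rw [Submonoid.coe_mul, map_mul, mul_assoc]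
      exact isIntegral_algebraMap.mul h2
    refine cc (m * m') _ _ ?_
    rw [hg _ (hs.add ht) _ (by rw [mul_add]; exact h3.add h4), mul_add, fa _ _ h3 h4, map_add,
      mul_add, hg _ hs _ h3, hg _ ht _ h4]
  · obtain ⟨m, h1⟩ := hm s hs
    obtain ⟨⟨a, u⟩, h2⟩ := IsLocalization.surj M r
    have h3 : algebraMap A L (m * u : M) * (algebraMap R L r * s) =
        algebraMap A L a * (algebraMap A L m * s) := by
      rw [IsScalarTower.algebraMap_apply A R L a, ← h2, map_mul (algebraMap R L),
        ← IsScalarTower.algebraMap_apply, Submonoid.coe_mul, map_mul]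
      ring
    refine cc (m * u) _ _ ?_
    rw [hg _ (isIntegral_algebraMap.mul hs) _ (by rw [h3]; exact isIntegral_algebraMap.mul h1), h3,
      fm _ _ h1, map_mul, ← hg _ hs _ h1, ← h2, Submonoid.coe_mul, map_mul]
    ring
  · have h2 := hg 1 isIntegral_one 1 (by simpa using isIntegral_one)
    rw [h0, mul_zero, map_one, mul_one] at h2
    exact f1 (hinj (by rw [← h2, map_zero]))

theorem solid_zero [IsDomain A] [IsIntegrallyClosed A] [Algebra ℚ A]
    (hinj : Function.Injective (algebraMap A L)) : Solid A L := by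
  have : FaithfulSMul A L := (faithfulSMul_iff_algebraMap_injective _ _).2 hinj
  let : Algebra (FractionRing A) L := FractionRing.liftAlgebra _ L
  have : CharZero A := algebraRat.charZero A
  have : CharZero (FractionRing A) :=
    charZero_of_injective_algebraMap (IsFractionRing.injective A (FractionRing A))
  have mem : ∀ s : L, IsIntegral A s → s ∈ algebraicClosure (FractionRing A) L := fun s hs =>
    mem_algebraicClosure_iff'.2 hs.tower_top
  obtain ⟨T, hT⟩ : ∃ T, T = Algebra.normalizedTrace (FractionRing A)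
    (algebraicClosure (FractionRing A) L) := ⟨_, rfl⟩
  have hex : ∀ s : L, ∃ a : A, ∀ hs : IsIntegral A s,
      algebraMap A (FractionRing A) a = T ⟨s, mem s hs⟩ := fun s => by
    by_cases hs : IsIntegral A s
    · have h1 : IsIntegral A (⟨s, mem s hs⟩ : algebraicClosure (FractionRing A) L) :=
        (isIntegral_algHom_iff ((algebraicClosure (FractionRing A) L).val.restrictScalars A)
          Subtype.val_injective).1 hs
      obtain ⟨y, hy⟩ : ∃ y, y = (⟨s, mem s hs⟩ : algebraicClosure (FractionRing A) L) := ⟨_, rfl⟩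
      rw [← hy] at h1
      refine ⟨algebraMap ℚ A ((minpoly (FractionRing A) y).natDegree : ℚ)⁻¹ *
        -(minpoly A y).nextCoeff, fun _ => ?_⟩
      rw [← hy, hT, Algebra.normalizedTrace_minpoly, map_mul, smul_eq_mul]
      congr 1
      · rw [← RingHom.comp_apply, map_inv₀, map_natCast]
      · rw [minpoly.isIntegrallyClosed_eq_field_fractions' (FractionRing A) h1, map_neg,
          Polynomial.nextCoeff_map (IsFractionRing.injective A (FractionRing A))]
    · exact ⟨0, fun h => absurd h hs⟩
  choose f hf using hex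
  refine ⟨f, fun s t hs ht => IsFractionRing.injective A (FractionRing A) ?_,
    fun a s hs => IsFractionRing.injective A (FractionRing A) ?_, fun h0 => ?_⟩
  · rw [map_add, hf _ hs, hf _ ht, hf _ (hs.add ht), ← map_add]
    rfl
  · rw [map_mul, hf _ hs, hf _ (isIntegral_algebraMap.mul hs),
      ← smul_eq_mul (algebraMap A (FractionRing A) a), ← map_smul]
    congr 1
    ext
    rw [IntermediateField.coe_smul, Algebra.smul_def, ← IsScalarTower.algebraMap_apply]
  · have h1 := hf 1 isIntegral_one
    have h2 := Algebra.normalizedTrace_algebraMap_apply_eq_self (FractionRing A)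
      (algebraicClosure (FractionRing A) L) 1
    rw [map_one, ← hT] at h2
    rw [h0, map_zero] at h1
    exact zero_ne_one (h1.trans h2)

theorem solid_ft (k : Type*) [Field k] [IsDomain R]
    [Algebra k R] [Algebra.FiniteType k R] (hinj : Function.Injective (algebraMap R L)) :
    Solid R L := by
  obtain ⟨n, g, g1, g2⟩ := exists_finite_inj_algHom_of_fg k R
  let : Algebra (MvPolynomial (Fin n) k) R := g.toRingHom.toAlgebra
  let : Algebra (MvPolynomial (Fin n) k) L := ((algebraMap R L).comp g.toRingHom).toAlgebra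
  let : Algebra k L :=
    ((algebraMap (MvPolynomial (Fin n) k) L).comp (algebraMap k (MvPolynomial (Fin n) k))).toAlgebra
  have : IsScalarTower (MvPolynomial (Fin n) k) R L := IsScalarTower.of_algebraMap_eq fun _ => rfl
  have : IsScalarTower k (MvPolynomial (Fin n) k) L := IsScalarTower.of_algebraMap_eq fun _ => rfl
  have : Module.Finite (MvPolynomial (Fin n) k) R := g2
  refine solid_finite (A := MvPolynomial (Fin n) k) g1 ?_
  obtain ⟨p, hp⟩ := CharP.exists k
  rcases CharP.char_is_prime_or_zero k p with h | rfl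
  · have := Fact.mk h
    exact solid_poly p (hinj.comp g1)
  · have := CharP.charP_to_charZero k
    exact solid_zero (hinj.comp g1)

theorem solid_ess (k : Type*) [Field k] [IsDomain R]
    [Algebra k R] [Algebra.EssFiniteType k R] (hinj : Function.Injective (algebraMap R L)) :
    ∃ f : ↥(integralClosure R L) →ₗ[R] R, f 1 ≠ 0 := by
  have h1 : Solid (Algebra.EssFiniteType.subalgebra k R) L :=
    solid_ft k (hinj.comp Subtype.val_injective)
  obtain ⟨f, fa, fm, f1⟩ : Solid R L :=
    solid_loc (Algebra.EssFiniteType.submonoid k R) Subtype.val_injective h1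
  exact ⟨⟨⟨fun s => f s, fun s t => fa _ _ s.2 t.2⟩, fun a s => by
    change f (a • (s : L)) = a * f s
    rw [Algebra.smul_def, fm _ _ s.2]⟩, f1⟩

end Pool.Agent.Lib.MP_f762b7_al.Gen
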